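import Pool.Agent.OGP.Final
import Pool.Agent.OGP.OA.Exist

/-!
# MP_31a6bd_an, Q2: the random embedding of the free group factor in the matrix ultraproduct is
almost surely not existential

`UG (Fin (n+1))` is the unitary group `U(n+1)`, `haarU` its normalised Haar measure.  `U n, V n` are
random unitary matrices such that for every `n` the pair `(U n, V n)` has law Haar times Haar (the
choices for different `n` are arbitrary, in particular they may be independent).
For almost every sample `ω` and every non-principal ultrafilter `𝒰` on `ℕ`: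
* there is an embedding `π` of `L(F_2)` in the matrix ultraproduct `MU 𝒰` with `π a = [U n ω]`,
  `π b = [V n ω]` (this is known, Voiculescu), and
* no such `π` is existential.

Proof.  An existential `π_ω` gives `θ : MU 𝒰 → LU 𝒱` mapping the classes of `U, V` to the diagonal
copies of `a, b`.  Almost surely there are unitaries `W_n` almost commuting with the spectral
projections of `U_n` on `k` equal blocks with `Re tr ((V_n W_n)^p) ≥ (0.39 p log p / k)^{1/2}` (second
moment method).  The image of `(W_n)` under `θ`, approximated by an element `f` of the group algebra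
(Kaplansky), can be evaluated at all random unitaries; evaluating `f` along an interpolation from
`V` to an independent matrix gives a continuous path of near optimisers, contradicting the overlap
gap property (first moment method with sharp large deviation bounds for traces of words in Haar
unitaries).
-/

open MeasureTheory Filter Topology

universe u v

namespace Pool.Agent.OGP.Draft

open Pool.Agent.OGP

theorem result {Ω : Type v} [MeasurableSpace Ω] (P : Measure Ω) [IsProbabilityMeasure P]
    (U V : ∀ n : ℕ, Ω → UG (Fin (n + 1))) (hU : ∀ n, Measurable (U n))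
    (hV : ∀ n, Measurable (V n))
    (hlaw : ∀ n, P.map (fun ω => (U n ω, V n ω)) =
      (haarU (Fin (n + 1))).prod (haarU (Fin (n + 1)))) :
    ∀ᵐ ω ∂P, ∀ 𝒰 : Ultrafilter ℕ, (∀ n, 𝒰 ≠ pure n) →
      (∃ π : LF2 →⋆ₐ[ℂ] MU 𝒰, IsEmb π ∧
        π la = MU.cls 𝒰 (fun n => U n ω) ∧ π lb = MU.cls 𝒰 (fun n => V n ω)) ∧
      ∀ π : LF2 →⋆ₐ[ℂ] MU 𝒰, π la = MU.cls 𝒰 (fun n => U n ω) →
        π lb = MU.cls 𝒰 (fun n => V n ω) → ¬ IsExistential.{u} π := by
  filter_upwards [no_theta.{u} P U V hU hV hlaw, free_ae P U V hU hV hlaw] with ω h1 h2 𝒰 h𝒰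
  have h3 : (𝒰 : Filter ℕ) ≤ atTop := by
    rcases 𝒰.le_cofinite_or_eq_pure with h | ⟨n, h⟩
    · rwa [Nat.cofinite_eq_atTop] at h
    · exact absurd h (h𝒰 n)
  refine ⟨exists_emb 𝒰 h3 _ _ fun g hg => (h2 g hg).mono_left h3, ?_⟩
  rintro π hπa hπb ⟨I, 𝒱, θ, htr, -, hθ⟩
  refine h1 𝒰 h3 I 𝒱 θ htr ?_ ?_
  · rw [← hπa, hθ]
  · rw [← hπb, hθ]

end Pool.Agent.OGP.Draft
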